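import Pool.Agent.MP_c1891a_nt.G43.Spec
import Pool.Agent.MP_c1891a_nt.H1.Def
import Pool.Agent.MP_c1891a_nt.H85.Arith
import Pool.Agent.MP_c1891a_nt.H36.Root

/-! The truncated logarithmic sum over a union of classes, in all dimensions. -/

namespace Pool.Agent.MP_c1891a_nt.G43

open Finset Polynomial H43 Filter

theorem defN_pert {Λ ι : Type} [AddCommGroup Λ] (I : Finset ι) (c : ι → ℂ) (m : ι → Λ)
    (χ η : AddChar Λ ℂ) {u : ℂ} (v : Λ →ₗ[ℤ] ℤ) (A₀ : ℤ) (N : ℕ) (hη : ∀ l, ‖η l‖ = 1)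
    (hu : ‖u‖ = 1) (hχ : ∀ l, χ l = η l * u ^ v l)
    (hN : ∀ i ∈ I, 0 ≤ A₀ + v (m i) ∧ A₀ + v (m i) ≤ N) (z s : ℝ) (hz : 1 ≤ z)
    (hzN : z ^ N ≤ 1 + s) :
    ‖(FP I c m η v A₀).eval (u * z)‖ ≤ ‖evN I c m χ‖ + (∑ i ∈ I, ‖c i‖) * s := by
  have hu0 : u ≠ 0 := by rintro rfl; simp at hu
  have e0 : (FP I c m η v A₀).eval u = u ^ A₀ * evN I c m χ := by
    unfold FP evN
    rw [eval_finsetSum, mul_sum]
    refine sum_congr rfl fun i hi => ?_
    rw [eval_mul, eval_C, eval_pow, eval_X, ← zpow_natCast, Int.toNat_of_nonneg (hN i hi).1,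
      zpow_add₀ hu0, hχ]
    ring
  have e1 : ‖evN I c m χ‖ = ‖(FP I c m η v A₀).eval u‖ := by
    rw [e0, norm_mul, norm_zpow, hu, one_zpow, one_mul]
  have e2 : ‖(FP I c m η v A₀).eval (u * z) - (FP I c m η v A₀).eval u‖ ≤
      (∑ i ∈ I, ‖c i‖) * s := by
    unfold FP
    rw [eval_finsetSum, eval_finsetSum, ← sum_sub_distrib, sum_mul]
    refine norm_sum_le_of_le _ fun i hi => ?_
    have hm : (A₀ + v (m i)).toNat ≤ N := Int.toNat_le.2 (hN i hi).2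
    generalize (A₀ + v (m i)).toNat = k at hm
    have : (u * z) ^ k - u ^ k = u ^ k * ((z ^ k - 1 : ℝ) : ℂ) := by push_cast; ring
    simp only [eval_mul, eval_C, eval_pow, eval_X]
    rw [← mul_sub, this, norm_mul, norm_mul, norm_mul, norm_pow, hη, hu, one_pow, mul_one, one_mul,
      Complex.norm_real, Real.norm_eq_abs,
      abs_of_nonneg (a := z ^ k - 1) (by linarith [one_le_pow₀ (n := k) hz])]
    refine mul_le_mul_of_nonneg_left ?_ (norm_nonneg _)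
    linarith [pow_le_pow_right₀ hz hm]
  rw [e1]
  linarith [norm_le_insert' ((FP I c m η v A₀).eval (u * z)) ((FP I c m η v A₀).eval u)]

theorem defN_asym (ε δ f C D : ℝ) (hε : 0 < ε) (hδ : 0 < δ) (hδ1 : δ ≤ 1 / 4) (hf : 0 ≤ f)
    (hC : 0 ≤ C) (hD : 0 ≤ D) : ∃ N₀ : ℕ, ∀ N : ℕ, N₀ ≤ N → 1 ≤ N → ∀ n t φ : ℝ, 0 ≤ n →
      n ≤ f * (N : ℝ) ^ (1 - 4 * δ) → 0 ≤ t → t ≤ (N : ℝ) ^ δ → (N : ℝ) ^ (1 - δ) ≤ φ →
      n * (t * (C + D * Real.log N)) + 1 ≤ ε * φ := by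
  obtain ⟨N₀, h₀⟩ := eventually_atTop.1 (((tendsto_rpow_atTop hδ).comp
    tendsto_natCast_atTop_atTop).eventually_ge_atTop ((f * (C + D / δ) + 1) / ε))
  refine ⟨N₀, fun N hN hN1 n t φ hn0 hn ht0 ht hφ => ?_⟩
  have h1 : (1 : ℝ) ≤ N := by exact_mod_cast hN1
  have h0 : (0 : ℝ) < N := by linarith
  have h2 := (div_le_iff₀ hε).1 (h₀ N hN)
  have hq : 1 ≤ (N : ℝ) ^ δ := Real.one_le_rpow h1 hδ.le
  have hw : 1 ≤ (N : ℝ) ^ (1 - 2 * δ) := Real.one_le_rpow h1 (by linarith)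
  have hl : Real.log N ≤ (N : ℝ) ^ δ / δ := Real.log_le_rpow_div h0.le hδ
  have hl0 : 0 ≤ Real.log N := Real.log_natCast_nonneg N
  have e1 : (N : ℝ) ^ (1 - 2 * δ) = N ^ (1 - 4 * δ) * (N ^ δ * N ^ δ) := by
    rw [← Real.rpow_add h0, ← Real.rpow_add h0]; ring_nf
  have e2 : (N : ℝ) ^ (1 - δ) = N ^ δ * N ^ (1 - 2 * δ) := by
    rw [← Real.rpow_add h0]; ring_nf
  have hC' : C ≤ C * N ^ δ := le_mul_of_one_le_right hC hq
  calc n * (t * (C + D * Real.log N)) + 1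
      ≤ f * N ^ (1 - 4 * δ) * (N ^ δ * (C * N ^ δ + D * (N ^ δ / δ))) + N ^ (1 - 2 * δ) := by
        gcongr
    _ = (f * (C + D / δ) + 1) * N ^ (1 - 2 * δ) := by rw [e1]; ring
    _ ≤ (N ^ δ * ε) * N ^ (1 - 2 * δ) := by gcongr; exact h2
    _ = ε * N ^ (1 - δ) := by rw [e2]; ring
    _ ≤ ε * φ := by gcongr

theorem sDefN : SDefN := by
  classical
  intro Λ ι _ I c m f A γ ε hf hγ hε
  obtain ⟨δ, hδ, hδ1, hδ2⟩ : ∃ δ : ℝ, 0 < δ ∧ δ ≤ 1 / 4 ∧ 4 * δ ≤ γ :=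
    ⟨min γ 1 / 4, by positivity, by linarith [min_le_right γ 1], by linarith [min_le_left γ 1]⟩
  obtain ⟨N₁, hN₁⟩ := sArith δ hδ
  obtain ⟨H, hH'⟩ : ∃ H, H = ∑ i ∈ I, ‖c i‖ := ⟨_, rfl⟩
  have hH : 0 ≤ H := hH' ▸ sum_nonneg fun _ _ => norm_nonneg _
  have hf' : (0 : ℝ) ≤ f := by positivity
  obtain ⟨N₂, hN₂⟩ := defN_asym ε δ f (Real.log (24 * (H + 1) * (f + 1))) (2 * A + 3) hε hδ hδ1
    hf' (Real.log_nonneg (by nlinarith [mul_nonneg hH hf'])) (by positivity)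
  refine ⟨max 2 (max N₁ N₂),
    fun N hN χ η X₀ v g a A₀ Γ hX hg0 hgN hη hχ ha hga hΓ hcl hne0 => ?_⟩
  have hN0 : 0 < N := two_pos.trans_le ((le_max_left _ _).trans hN)
  obtain ⟨hφ, hd⟩ := hN₁ N (((le_max_left _ _).trans (le_max_right _ _)).trans hN)
  have hX1 : ‖X₀‖ = 1 := hX.norm'_eq_one hN0.ne'
  have hN1 : (1 : ℝ) ≤ N := by exact_mod_cast hN0
  set τ : ℝ := (((N : ℝ) + 1) ^ A)⁻¹ with hτ
  have hτ0 : 0 < τ := by positivity
  have hτ1 : τ ≤ 1 := inv_le_one_of_one_le₀ (one_le_pow₀ (by linarith))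
  set s : ℝ := τ / ((H + 1) * N) with hs
  have hs0 : 0 < s := by positivity
  have hs1 : s ≤ 1 := by
    rw [hs, div_le_one (by positivity)]
    nlinarith
  obtain ⟨g', hg'⟩ : ∃ g', g' = Nat.lcm g (Nat.gcd f N) := ⟨_, rfl⟩
  have hf0 : 0 < Nat.gcd f N := Nat.gcd_pos_of_pos_left _ hf
  have g1 : g ∣ g' := hg' ▸ Nat.dvd_lcm_left _ _
  have g2 : Nat.gcd f N ∣ g' := hg' ▸ Nat.dvd_lcm_right _ _
  have g3 : g' ≤ g * f := hg' ▸ (Nat.le_of_dvd (Nat.mul_pos hg0 hf0) (Nat.lcm_dvd_mul _ _)).trans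
    (Nat.mul_le_mul_left _ (Nat.gcd_le_left _ hf))
  have hmod : ∀ j : ℕ, η ^ (j % g') = η ^ j := fun j => (pow_eq_pow_mod j (by
    obtain ⟨k, rfl⟩ := g1
    rw [pow_mul, hη, one_pow])).symm
  obtain ⟨F, hF⟩ : ∃ F : ℕ → ℂ[X], F = fun j => FP I c m (η ^ j) v A₀ := ⟨_, rfl⟩
  obtain ⟨z, hz1, hzN, hne, hlow⟩ := def_core sRoot N g' a hN0
    (hg' ▸ Nat.lcm_pos hg0 hf0) (hg' ▸ Nat.lcm_dvd hgN (Nat.gcd_dvd_right _ _)) _ hX
    (fun j => if (∃ i ∈ Γ, i ≡ j [MOD Nat.gcd f N]) ∧ F j ≠ 0 then F j else 1)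
    (fun j => by
      split_ifs with h
      · exact h.2
      · exact one_ne_zero)
    (fun j => by
      split_ifs
      · rw [hF]
        exact natDegree_sum_le_of_forall_le _ _ fun i hi =>
          (natDegree_C_mul_X_pow_le _ _).trans (Int.toNat_le.2 (ha i hi).2)
      · simp)
    (fun j => by simp only [hF, hmod, Nat.ModEq, Nat.mod_mod_of_dvd _ g2]) s hs0 hs1
  have hin : ∀ j ∈ Γ, (if (∃ i ∈ Γ, i ≡ j [MOD Nat.gcd f N]) ∧ F j ≠ 0 then F j else 1) = F j :=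
    fun j hj => if_pos ⟨⟨j, hj, rfl⟩, hF ▸ hne0 j hj⟩
  have hout : ∀ j ∈ Cop N, j ∉ Γ →
      (if (∃ i ∈ Γ, i ≡ j [MOD Nat.gcd f N]) ∧ F j ≠ 0 then F j else 1) = 1 :=
    fun j hj h => if_neg fun ⟨⟨i, a, b⟩, _⟩ => h (hcl i a j hj b)
  rw [← sum_subset hΓ fun j a b => by rw [hout j a b, logMahlerMeasure_one],
    ← sum_subset hΓ fun j a b => by rw [hout j a b]; simp,
    sum_congr rfl fun j hj => by rw [hin j hj],
    sum_congr (s₁ := Γ) (f := fun j => Real.log _) rfl fun j hj => by rw [hin j hj]] at hlow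
  set n : ℕ := g' * a with hn
  have hw : (N : ℝ) ^ (1 - 4 * δ) ≤ N :=
    (Real.rpow_le_rpow_of_exponent_le hN1 (by linarith)).trans_eq (Real.rpow_one _)
  have hga' : (g * a : ℝ) ≤ (N : ℝ) ^ (1 - 4 * δ) :=
    hga.trans (Real.rpow_le_rpow_of_exponent_le hN1 (by linarith))
  have hn2 : (n : ℝ) ≤ f * (N : ℝ) ^ (1 - 4 * δ) := by
    have a1 : n ≤ f * (g * a) := (Nat.mul_le_mul_right _ g3).trans_eq (by ring)
    have a2 : (n : ℝ) ≤ f * (g * a) := by exact_mod_cast a1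
    exact a2.trans (by gcongr)
  have herr := hN₂ N (((le_max_right _ _).trans (le_max_right _ _)).trans hN) hN0 n
    N.divisors.card N.totient (by positivity) hn2 (by positivity) hd hφ
  have haN : a ≤ N := (Nat.le_mul_of_pos_left _ hg0).trans (by exact_mod_cast hga'.trans hw)
  have hup : ∀ j ∈ Γ, Real.log ‖(F j).eval (X₀ ^ j * z)‖ ≤
      Real.log (max ‖evN I c m (χ ^ j)‖ τ) + 1 / N := by
    intro j hj
    have a0 := hne j (hΓ hj)
    rw [hin j hj] at a0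
    have a1 := defN_pert I c m (χ ^ j) (η ^ j) (u := X₀ ^ j) v A₀ N
      (fun l => by
        rw [AddChar.pow_apply, norm_pow, Complex.norm_eq_one_of_pow_eq_one
          (by rw [← AddChar.pow_apply, hη, AddChar.one_apply]) hg0.ne', one_pow])
      (by simp [hX1])
      (fun l => by
        rw [AddChar.pow_apply, AddChar.pow_apply, hχ, mul_pow, ← zpow_natCast (X₀ ^ v l),
          ← zpow_natCast X₀, ← zpow_mul, ← zpow_mul, mul_comm (v l)])
      (fun i hi => ⟨(ha i hi).1, (ha i hi).2.trans (by exact_mod_cast haN)⟩) z s hz1 hzN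
    rw [← hH'] at a1
    have a2 : H * s ≤ τ * (1 / N) := by
      calc H * s ≤ (H + 1) * s := by gcongr; linarith
        _ = τ * (1 / N) := by rw [hs]; field_simp
    set M := max ‖evN I c m (χ ^ j)‖ τ with hM'
    have hM0 : 0 < M := lt_max_of_lt_right hτ0
    have a3 : ‖evN I c m (χ ^ j)‖ ≤ M := le_max_left _ _
    have a4 : τ * (1 / N) ≤ M * (1 / N) := by gcongr; exact le_max_right _ _
    rw [hF] at a0 ⊢
    have a5 := Real.log_le_log (norm_pos_iff.2 a0) (a1.trans (by linarith : _ ≤ M * (1 + 1 / N)))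
    rw [Real.log_mul hM0.ne' (by positivity)] at a5
    linarith [Real.log_le_sub_one_of_pos (by positivity : (0 : ℝ) < 1 + 1 / N)]
  have hsum := sum_le_sum hup
  rw [sum_add_distrib, sum_const, nsmul_eq_mul] at hsum
  have hc : (Γ.card : ℝ) * (1 / N) ≤ 1 := by
    have : (Γ.card : ℝ) ≤ N := by
      exact_mod_cast (card_le_card hΓ).trans ((card_filter_le _ _).trans (card_range N).le)
    rw [mul_one_div, div_le_one (by positivity)]
    exact this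
  have hN2 : (2 : ℝ) ≤ N := by exact_mod_cast (le_max_left _ _).trans hN
  have hl : Real.log (3 * N / (s / (8 * ((n : ℝ) + 1)))) ≤
      Real.log (24 * (H + 1) * (f + 1)) + (2 * A + 3) * Real.log N := by
    have e : Real.log (24 * (H + 1) * (f + 1)) + (2 * A + 3) * Real.log N =
        Real.log (24 * (H + 1) * (f + 1) * N ^ (2 * A + 3)) := by
      rw [Real.log_mul (x := 24 * (H + 1) * (f + 1)) (by positivity) (by positivity), Real.log_pow]
      push_cast; ring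
    rw [e]
    refine Real.log_le_log (by positivity) ?_
    calc 3 * N / (s / (8 * ((n : ℝ) + 1))) = 24 * (H + 1) * N ^ 2 * (N + 1) ^ A * (n + 1) := by
          rw [hs, hτ]; field_simp; ring
      _ ≤ 24 * (H + 1) * N ^ 2 * (N ^ 2) ^ A * (f * N + N) := by
          gcongr
          · nlinarith
          · exact hn2.trans (by gcongr)
      _ = _ := by ring
  have hl2 : (n : ℝ) * (N.divisors.card * Real.log (3 * N / (s / (8 * ((n : ℝ) + 1))))) ≤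
      n * (N.divisors.card * (Real.log (24 * (H + 1) * (f + 1)) + (2 * A + 3) * Real.log N)) := by
    gcongr
  simp only [hF] at hlow hsum
  linarith

end Pool.Agent.MP_c1891a_nt.G43
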